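import Mathlib
import Pool.Agent.X218.PC.NoPhase

/-!
# MP_27056a_lc, Q1 (positive answer)

For every `d ≥ 2` there is a free Borel action of `ℤ^d` all of whose coordinate subactions have
Borel proper 2-colourings, while its grid graph has no Borel `2^d`-polychromatic colouring.
-/

set_option linter.style.haveILetI false

open Set Filter Topology

namespace Pool.Agent.Results.MP_27056a_lc.NoPolychromatic

/-- A Borel action of `ℤ^d`. -/
def BorelAction (d : ℕ) (X : Type) [MeasurableSpace X] [AddAction (Fin d → ℤ) X] : Prop :=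
  ∀ γ : Fin d → ℤ, Measurable (fun x : X => γ +ᵥ x)

/-- A free action of `ℤ^d`. -/
def FreeAction (d : ℕ) (X : Type) [AddAction (Fin d → ℤ) X] : Prop :=
  ∀ (γ : Fin d → ℤ) (x : X), γ +ᵥ x = x → γ = 0

/-- The `i`-th standard generator. -/
def gen {d : ℕ} (i : Fin d) : Fin d → ℤ := Pi.single i 1

/-- `c` is a Borel proper 2-colouring of the `i`-th coordinate subaction. -/
def IsCoordinateColouring {d : ℕ} {X : Type} [MeasurableSpace X] [AddAction (Fin d → ℤ) X]
    (i : Fin d) (c : X → Bool) : Prop :=
  Measurable c ∧ ∀ x, c (gen i +ᵥ x) ≠ c x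

/-- `c` is a Borel `k`-polychromatic colouring of the grid graph: it is Borel and every unit cube
`{0,1}^d +ᵥ x` contains points of all `k` colours. -/
def IsPolychromatic (d : ℕ) {X : Type} [MeasurableSpace X] [AddAction (Fin d → ℤ) X] {k : ℕ}
    (c : X → Fin k) : Prop :=
  Measurable c ∧ ∀ (x : X) (a : Fin k), ∃ ε : Fin d → ℤ, (∀ i, ε i = 0 ∨ ε i = 1) ∧ c (ε +ᵥ x) = a

open Pool.Agent.X218.PC

/-- the free points -/
def FreeSet (d : ℕ) : Set (K d) := {x | ∀ γ : V d, γ ≠ 0 → act γ x ≠ x}

theorem act_mem {d : ℕ} {x : K d} (hx : x ∈ FreeSet d) (γ : V d) : act γ x ∈ FreeSet d := by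
  intro δ hδ h
  apply hx δ hδ
  have h1 := congrArg (act (-γ)) h
  rw [act_act, act_act, act_act] at h1
  have e1 : -γ + (δ + γ) = δ := by abel
  have e2 : -γ + γ = 0 := by abel
  rwa [add_assoc, e1, e2, act_zero] at h1

/-- the free part -/
abbrev FP (d : ℕ) : Type := FreeSet d

instance (d : ℕ) : AddAction (Fin d → ℤ) (FP d) where
  vadd γ x := ⟨act γ x.1, act_mem x.2 γ⟩
  zero_vadd x := Subtype.ext (act_zero x.1)
  add_vadd γ δ x := Subtype.ext (act_act γ δ x.1).symm

theorem vadd_val {d : ℕ} (γ : Fin d → ℤ) (x : FP d) : (γ +ᵥ x).1 = act γ x.1 := rfl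

theorem measurable_act {d : ℕ} (γ : V d) : Measurable (act γ : K d → K d) :=
  (continuous_act γ).measurable

theorem measurableSet_FreeSet (d : ℕ) : MeasurableSet (FreeSet d) := by
  have : FreeSet d = ⋂ γ : V d, ⋂ (_ : γ ≠ 0), {x | act γ x ≠ x} := by
    ext x; simp [FreeSet]
  rw [this]
  refine MeasurableSet.iInter fun γ => MeasurableSet.iInter fun _ => ?_
  exact (isOpen_ne_fun (continuous_act γ) continuous_id).measurableSet

/-- the vertices of the unit cube -/
def cb {d : ℕ} (β : Fin d → Bool) : Fin d → ℤ := fun i => if β i then 1 else 0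

theorem no_poly {d : ℕ} (hd : 2 ≤ d) (c : FP d → Fin (2 ^ d)) (hc : IsPolychromatic d c) :
    False := by
  classical
  obtain ⟨hcm, hc⟩ := hc
  have h0 : 0 < 2 ^ d := by positivity
  let a0 : Fin (2 ^ d) := ⟨0, h0⟩
  have hbij : ∀ x : FP d, Function.Bijective (fun β : Fin d → Bool => c (cb β +ᵥ x)) := by
    intro x
    rw [Fintype.bijective_iff_surjective_and_card]
    refine ⟨fun a => ?_, by simp⟩
    obtain ⟨ε, hε, hca⟩ := hc x a
    refine ⟨fun i => decide (ε i = 1), ?_⟩
    have : cb (fun i => decide (ε i = 1)) = ε := by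
      funext i
      rcases hε i with h | h <;> simp [cb, h]
    show c (cb _ +ᵥ x) = a
    rw [this, hca]
  have hpos : ∀ x : FP d, ∃ β : Fin d → Bool, c (cb β +ᵥ x) = a0 := fun x => (hbij x).2 a0
  choose pos hpos using hpos
  have huniq : ∀ (x : FP d) (β : Fin d → Bool), c (cb β +ᵥ x) = a0 → pos x = β := by
    intro x β h
    exact (hbij x).1 ((hpos x).trans h.symm)
  have P1 : ∀ (x : FP d) (i : Fin d), pos x i = true →
      pos (gen i +ᵥ x) = Function.update (pos x) i false := by
    intro x i hi
    apply huniq
    rw [← add_vadd]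
    have : cb (Function.update (pos x) i false) + gen i = cb (pos x) := by
      funext k
      by_cases hk : k = i
      · subst hk
        simp [cb, gen, hi]
      · simp [cb, gen, hk]
    rw [this]
    exact hpos x
  have P2 : ∀ (x : FP d) (i : Fin d), pos x i = false → pos (gen i +ᵥ x) i = true := by
    intro x i hi
    by_contra hcon
    rw [Bool.not_eq_true] at hcon
    have h1 : pos x = Function.update (pos (gen i +ᵥ x)) i true := by
      apply huniq
      have : cb (Function.update (pos (gen i +ᵥ x)) i true) = cb (pos (gen i +ᵥ x)) + gen i := by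
        funext k
        by_cases hk : k = i
        · subst hk
          show (if Function.update (pos (gen k +ᵥ x)) k true k = true then (1 : ℤ) else 0) =
            (if pos (gen k +ᵥ x) k = true then (1 : ℤ) else 0) + (Pi.single k 1 : Fin d → ℤ) k
          rw [hcon]
          simp
        · simp [cb, gen, hk]
      rw [this, add_vadd]
      exact hpos _
    rw [h1] at hi
    simp at hi
  let e : Fin d → K d → Bool := fun i x => if h : x ∈ FreeSet d then pos ⟨x, h⟩ i else false
  have hmeas : ∀ i, Measurable (e i) := by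
    intro i
    refine measurable_to_bool ?_
    have h1 : e i ⁻¹' {true} = Subtype.val '' (⋃ β : Fin d → Bool, ⋃ (_ : β i = true),
        {x : FP d | c (cb β +ᵥ x) = a0}) := by
      ext x
      simp only [mem_preimage, mem_singleton_iff, mem_image, mem_iUnion, mem_setOf_eq]
      constructor
      · intro hx
        by_cases h : x ∈ FreeSet d
        · refine ⟨⟨x, h⟩, ⟨pos ⟨x, h⟩, ?_, hpos _⟩, rfl⟩
          simpa [e, h] using hx
        · simp [e, h] at hx
      · rintro ⟨y, ⟨β, hβ, hy⟩, rfl⟩
        have h2 := huniq y β hy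
        have h3 : e i y.1 = pos y i := by simp [e]
        rw [h3, h2, hβ]
    rw [h1]
    refine (measurableSet_FreeSet d).subtype_image ?_
    refine MeasurableSet.iUnion fun β => MeasurableSet.iUnion fun _ => ?_
    have h4 : Measurable (fun x : FP d => c (cb β +ᵥ x)) := by
      refine hcm.comp ?_
      exact Measurable.subtype_mk ((measurable_act (cb β)).comp measurable_subtype_coe)
    exact h4 (measurableSet_singleton a0)
  have hfree : ∀ᶠ x in residual (K d), x ∈ FreeSet d := by
    have : ∀ᶠ x in residual (K d), ∀ γ : V d, γ ≠ 0 → act γ x ≠ x := by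
      rw [eventually_countable_forall]
      intro γ
      by_cases hγ : γ = 0
      · filter_upwards with x h
        exact absurd hγ h
      · filter_upwards [generic_free hd γ hγ] with x hx _
        exact hx
    exact this
  refine no_phases hd e hmeas ?_ ?_
  · filter_upwards [hfree] with x hx i
    have h1 : e i x = pos ⟨x, hx⟩ i := by simp [e, hx]
    have h2 : e i (act (ve i 1) x) = pos (gen i +ᵥ (⟨x, hx⟩ : FP d)) i := by
      have h3 : act (ve i 1) x ∈ FreeSet d := act_mem hx _
      simp only [e, h3, dif_pos]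
      rfl
    rw [h1, h2]
    cases h4 : pos ⟨x, hx⟩ i
    · exact P2 _ _ h4
    · rw [P1 _ _ h4]
      simp
  · filter_upwards [hfree] with x hx i j hij hj
    have h1 : ∀ k, e k x = pos ⟨x, hx⟩ k := fun k => by simp [e, hx]
    have h2 : e i (act (ve j 1) x) = pos (gen j +ᵥ (⟨x, hx⟩ : FP d)) i := by
      have h3 : act (ve j 1) x ∈ FreeSet d := act_mem hx _
      simp only [e, h3, dif_pos]
      rfl
    rw [h1] at hj
    rw [h1, h2, P1 _ _ hj]
    simp [hij]

/-- **MP_27056a_lc, Q1 (positive answer).** For every `d ≥ 2` there is a free Borel action of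
`ℤ^d` on a standard Borel space `X` such that each coordinate subaction admits a Borel proper
2-colouring, while the grid graph has no Borel `2^d`-polychromatic colouring. -/
theorem result (d : ℕ) (hd : 2 ≤ d) : ∃ (X : Type) (_ : MeasurableSpace X)
    (_ : StandardBorelSpace X) (_ : AddAction (Fin d → ℤ) X), BorelAction d X ∧ FreeAction d X ∧
      (∀ i : Fin d, ∃ c : X → Bool, IsCoordinateColouring i c) ∧
      ¬ ∃ c : X → Fin (2 ^ d), IsPolychromatic d c := by
  classical
  haveI : StandardBorelSpace (FP d) := (measurableSet_FreeSet d).standardBorel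
  refine ⟨FP d, inferInstance, inferInstance, inferInstance, ?_, ?_, ?_, ?_⟩
  · intro γ
    exact Measurable.subtype_mk ((measurable_act γ).comp measurable_subtype_coe)
  · intro γ x h
    by_contra hγ
    exact x.2 γ hγ (congrArg Subtype.val h)
  · intro i
    let p : J d := ⟨(i, 0), rfl⟩
    refine ⟨fun x => decide (x.1 p = 0), ?_, fun x => ?_⟩
    · have h1 : Measurable (fun x : FP d => x.1 p) := by
        have h2 : Measurable (fun x : K d => x p) :=
          (show Continuous (fun x : K d => x p) from continuous_apply p).measurable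
        exact h2.comp measurable_subtype_coe
      refine measurable_to_bool ?_
      have h3 : (fun x : FP d => decide (x.1 p = 0)) ⁻¹' {true} =
          (fun x : FP d => x.1 p) ⁻¹' {0} := by
        ext x; simp
      rw [h3]
      exact h1 (measurableSet_singleton 0)
    · show decide (act (gen i) x.1 p = 0) ≠ decide (x.1 p = 0)
      have h1 : act (gen i) x.1 p = x.1 p + 1 := by
        show x.1 (sh (gen i) p) + ((gen i) i : ZMod 2) = x.1 p + 1
        have h2 : sh (gen i) p = p := sh_ve_self 1 p
        rw [h2]
        simp [gen]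
      rw [h1]
      have h3 : ∀ a : ZMod 2, decide (a + 1 = 0) ≠ decide (a = 0) := by decide
      exact h3 _
  · rintro ⟨c, hc⟩
    exact no_poly hd c hc

end Pool.Agent.Results.MP_27056a_lc.NoPolychromatic
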